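import Mathlib

open MeasureTheory Filter Topology ArithmeticFunction

namespace Pool.Agent.Results.MP_2e860a_nt.LevelSetTransfer

noncomputable section

/-- the nonzero complex numbers as a discrete group -/
def Gam : Type := ℂˣ

instance : CommGroup Gam := inferInstanceAs (CommGroup ℂˣ)
instance : TopologicalSpace Gam := ⊥
instance : DiscreteTopology Gam := ⟨rfl⟩

/-- the element of the group given by a nonzero complex number -/
def mkG (z : ℂ) (hz : z ≠ 0) : Gam := Units.mk0 z hz

/-- the underlying complex number -/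
def val : Gam →* ℂ := (Units.coeHom ℂ : ℂˣ →* ℂ)

lemma val_mkG (z : ℂ) (hz : z ≠ 0) : val (mkG z hz) = z := rfl

lemma val_ne (γ : Gam) : val γ ≠ 0 := Units.ne_zero (show ℂˣ from γ)

lemma val_inj {a b : Gam} (h : val a = val b) : a = b :=
  Units.ext (u := (show ℂˣ from a)) (v := (show ℂˣ from b)) h

/-- its (compact) dual group -/
abbrev Dual : Type := PontryaginDual Gam

instance : MeasurableSpace Dual := borel _
instance : BorelSpace Dual := ⟨rfl⟩

/-- normalised Haar measure -/
def hm : Measure Dual := Measure.haarMeasure ⊤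

instance : IsProbabilityMeasure hm := ⟨by
  have := Measure.haarMeasure_self (K₀ := (⊤ : TopologicalSpace.PositiveCompacts Dual))
  simpa [hm] using this⟩

instance : hm.IsMulLeftInvariant := by unfold hm; infer_instance

/-- angular character -/
def ang : Gam →* Circle where
  toFun z := ⟨val z / ‖val z‖, by
    change val z / ‖val z‖ ∈ Metric.sphere (0 : ℂ) 1
    rw [mem_sphere_zero_iff_norm, norm_div, Complex.norm_real, norm_norm, div_self]
    exact norm_ne_zero_iff.mpr (val_ne z)⟩
  map_one' := by
    apply Subtype.ext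
    simp
  map_mul' a b := by
    apply Subtype.ext
    simp only [map_mul, norm_mul, Complex.ofReal_mul]
    change _ = (val a / ‖val a‖) * (val b / ‖val b‖)
    rw [mul_div_mul_comm]

/-- radial character -/
def rad (t : ℝ) : Gam →* Circle where
  toFun z := Circle.exp (t * Real.log ‖val z‖)
  map_one' := by simp
  map_mul' a b := by
    rw [map_mul val, norm_mul, Real.log_mul (norm_ne_zero_iff.mpr (val_ne a))
      (norm_ne_zero_iff.mpr (val_ne b)), mul_add, Circle.exp_add]

/-- homomorphisms of the discrete group are continuous -/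
def toDual (f : Gam →* Circle) : Dual := ⟨f, continuous_of_discreteTopology⟩

lemma toDual_apply (f : Gam →* Circle) (γ : Gam) : toDual f γ = f γ := rfl

lemma exists_char_ne {γ : Gam} (hγ : γ ≠ 1) : ∃ χ : Dual, χ γ ≠ 1 := by
  by_cases hn : ‖val γ‖ = 1
  · refine ⟨toDual ang, fun h => hγ (val_inj ?_)⟩
    rw [toDual_apply] at h
    have h1 := congrArg (Subtype.val) h
    change val γ / ‖val γ‖ = 1 at h1
    rw [hn] at h1
    rw [map_one]
    simpa using h1
  · have hl : Real.log ‖val γ‖ ≠ 0 := by
      have := norm_pos_iff.mpr (val_ne γ)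
      rw [Real.log_ne_zero]
      refine ⟨this.ne', hn, by linarith⟩
    refine ⟨toDual (rad (Real.pi / Real.log ‖val γ‖)), fun h => ?_⟩
    rw [toDual_apply] at h
    change Circle.exp (Real.pi / Real.log ‖val γ‖ * Real.log ‖val γ‖) = 1 at h
    rw [div_mul_cancel₀ _ hl] at h
    exact Circle.exp_pi_ne_one h

lemma continuous_eval (γ : Gam) : Continuous (fun χ : Dual => ((χ γ : Circle) : ℂ)) := by
  have h1 : Continuous (fun χ : Dual => (χ γ : Circle)) :=
    continuous_eval_const (F := Gam →ₜ* Circle) γ
  exact continuous_subtype_val.comp h1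

open Classical in
lemma integral_char {γ : Gam} : ∫ χ : Dual, ((χ γ : Circle) : ℂ) ∂hm = if γ = 1 then 1 else 0 := by
  split_ifs with h
  · subst h
    simp
  · obtain ⟨χ0, h0⟩ := exists_char_ne h
    have h1 : ∫ χ : Dual, (((χ0 * χ) γ : Circle) : ℂ) ∂hm = ∫ χ : Dual, ((χ γ : Circle) : ℂ) ∂hm :=
      integral_mul_left_eq_self (μ := hm) (fun χ : Dual => ((χ γ : Circle) : ℂ)) χ0
    have h2 : ∫ χ : Dual, (((χ0 * χ) γ : Circle) : ℂ) ∂hm =
        ((χ0 γ : Circle) : ℂ) * ∫ χ : Dual, ((χ γ : Circle) : ℂ) ∂hm := by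
      rw [← integral_const_mul]
      rfl
    rw [h2] at h1
    have h3 : ((χ0 γ : Circle) : ℂ) ≠ 1 := fun h => h0 (Subtype.ext h)
    have h4 : (((χ0 γ : Circle) : ℂ) - 1) * ∫ χ : Dual, ((χ γ : Circle) : ℂ) ∂hm = 0 := by
      rw [sub_mul, h1, one_mul, sub_self]
    exact (mul_eq_zero.mp h4).resolve_left (sub_ne_zero.mpr h3)

/-- the unimodular (or zero) multiplicative function attached to a character -/
def hchi (g : ArithmeticFunction ℂ) (χ : Dual) : ArithmeticFunction ℂ :=
  ⟨fun n => if h : g n = 0 then 0 else ((χ (mkG (g n) h) : Circle) : ℂ), by simp⟩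

lemma hchi_of_ne (g : ArithmeticFunction ℂ) (χ : Dual) {n : ℕ} (h : g n ≠ 0) :
    hchi g χ n = ((χ (mkG (g n) h) : Circle) : ℂ) := by
  change (if h : g n = 0 then 0 else _) = _
  rw [dif_neg h]

lemma hchi_of_eq (g : ArithmeticFunction ℂ) (χ : Dual) {n : ℕ} (h : g n = 0) :
    hchi g χ n = 0 := by
  change (if h : g n = 0 then 0 else _) = _
  rw [dif_pos h]

lemma hchi_norm (g : ArithmeticFunction ℂ) (χ : Dual) (n : ℕ) : ‖hchi g χ n‖ ≤ 1 := by
  by_cases h : g n = 0
  · rw [hchi_of_eq g χ h, norm_zero]
    exact zero_le_one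
  · rw [hchi_of_ne g χ h, Circle.norm_coe]

lemma hchi_mult {g : ArithmeticFunction ℂ} (hg : g.IsMultiplicative) (χ : Dual) :
    (hchi g χ).IsMultiplicative := by
  constructor
  · rw [hchi_of_ne g χ (by rw [hg.1]; exact one_ne_zero)]
    have : mkG (g 1) (by rw [hg.1]; exact one_ne_zero) = 1 := by
      apply val_inj
      rw [map_one val]
      exact hg.1
    rw [this, map_one]
    rfl
  · intro m n hmn
    have hgmn := hg.2 hmn
    by_cases hm : g m = 0
    · rw [hchi_of_eq g χ hm, hchi_of_eq g χ (by rw [hgmn, hm, zero_mul]), zero_mul]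
    by_cases hn : g n = 0
    · rw [hchi_of_eq g χ hn, hchi_of_eq g χ (by rw [hgmn, hn, mul_zero]), mul_zero]
    have hmn0 : g (m * n) ≠ 0 := by
      rw [hgmn]
      exact mul_ne_zero hm hn
    rw [hchi_of_ne g χ hm, hchi_of_ne g χ hn, hchi_of_ne g χ hmn0]
    have : mkG (g (m * n)) hmn0 = mkG (g m) hm * mkG (g n) hn := by
      apply val_inj
      rw [map_mul val]
      exact hgmn
    rw [this, map_mul]
    rfl

/-- Fourier inversion: the indicator of a level set as an average of multiplicative functions -/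
lemma integral_hchi (g : ArithmeticFunction ℂ) {c : ℂ} (hc : c ≠ 0) (n : ℕ) :
    ∫ χ : Dual, hchi g χ n * (starRingEnd ℂ) ((χ (mkG c hc) : Circle) : ℂ) ∂hm =
      if g n = c then 1 else 0 := by
  classical
  by_cases hn : g n = 0
  · rw [if_neg (by rw [hn]; exact fun h => hc h.symm)]
    simp [hchi_of_eq g _ hn]
  · have h1 : ∀ χ : Dual, hchi g χ n * (starRingEnd ℂ) ((χ (mkG c hc) : Circle) : ℂ) =
        ((χ (mkG (g n) hn * (mkG c hc)⁻¹) : Circle) : ℂ) := by
      intro χ
      rw [hchi_of_ne g χ hn, map_mul, map_inv, ← Circle.coe_inv_eq_conj]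
      rfl
    simp only [h1]
    rw [integral_char]
    congr 1
    rw [mul_inv_eq_one]
    apply propext
    constructor
    · intro h
      have := congrArg val h
      rwa [val_mkG, val_mkG] at this
    · intro h
      apply val_inj
      rw [val_mkG, val_mkG, h]

lemma continuous_hchi (g : ArithmeticFunction ℂ) (n : ℕ) :
    Continuous (fun χ : Dual => hchi g χ n) := by
  by_cases hn : g n = 0
  · simp only [hchi_of_eq g _ hn]
    exact continuous_const
  · simp only [hchi_of_ne g _ hn]
    exact continuous_eval _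

/-- **Transfer principle.** Weighted averages with uniformly bounded mass which vanish in the limit
for all multiplicative functions with values in the unit disc also vanish in the limit for the
indicator functions of the level sets of arbitrary multiplicative functions. -/
theorem transfer (s : ℕ → Finset ℕ) (hs : ∀ N, ∀ n ∈ s N, n ≠ 0) (w : ℕ → ℕ → ℂ) (B : ℝ)
    (hw : ∀ N, ∑ n ∈ s N, ‖w N n‖ ≤ B)
    (H : ∀ h : ArithmeticFunction ℂ, h.IsMultiplicative → (∀ n, ‖h n‖ ≤ 1) →
      Tendsto (fun N => ∑ n ∈ s N, w N n * h n) atTop (𝓝 0))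
    (g : ArithmeticFunction ℂ) (hg : g.IsMultiplicative) (c : ℂ) :
    Tendsto (fun N => ∑ n ∈ s N, w N n * (if g n = c then 1 else 0)) atTop (𝓝 0) := by
  by_cases hc : c = 0
  · subst hc
    have h1 := H (ArithmeticFunction.zeta : ArithmeticFunction ℕ) 
      (ArithmeticFunction.isMultiplicative_zeta.natCast) (by
        intro n
        by_cases hn : n = 0
        · simp [hn]
        · simp [ArithmeticFunction.zeta_apply, hn])
    have h2 := H (hchi g 1) (hchi_mult hg 1) (hchi_norm g 1)
    have h3 := h1.sub h2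
    rw [sub_zero] at h3
    refine h3.congr fun N => ?_
    rw [← Finset.sum_sub_distrib]
    refine Finset.sum_congr rfl fun n hn => ?_
    have hn0 := hs N n hn
    by_cases hgn : g n = 0
    · rw [hchi_of_eq g 1 hgn, if_pos hgn]
      simp [ArithmeticFunction.zeta_apply, hn0]
    · rw [hchi_of_ne g 1 hgn, if_neg hgn]
      simp [ArithmeticFunction.zeta_apply, hn0]
  · have h1 : ∀ N, ∑ n ∈ s N, w N n * (if g n = c then 1 else 0) =
        ∫ χ : Dual, (∑ n ∈ s N, w N n * hchi g χ n) *
          (starRingEnd ℂ) ((χ (mkG c hc) : Circle) : ℂ) ∂hm := by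
      intro N
      simp only [Finset.sum_mul]
      rw [integral_finsetSum]
      · refine Finset.sum_congr rfl fun n _ => ?_
        rw [← integral_hchi g hc n, ← integral_const_mul]
        congr 1
        funext χ
        ring
      · intro n _
        apply Continuous.integrable_of_hasCompactSupport
        · exact (continuous_const.mul (continuous_hchi g n)).mul
            (Complex.continuous_conj.comp (continuous_eval _))
        · exact HasCompactSupport.of_compactSpace _
    simp only [h1]
    have h2 : (0 : ℂ) = ∫ χ : Dual, (0 : ℂ) ∂hm := by simp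
    rw [h2]
    refine tendsto_integral_of_dominated_convergence (fun _ => B) ?_ (integrable_const _) ?_ ?_
    · intro N
      apply Continuous.aestronglyMeasurable
      exact (continuous_finsetSum _ fun n _ => continuous_const.mul (continuous_hchi g n)).mul
            (Complex.continuous_conj.comp (continuous_eval _))
    · intro N
      refine Filter.Eventually.of_forall fun χ => ?_
      rw [norm_mul, RCLike.norm_conj, Circle.norm_coe, mul_one]
      refine (norm_sum_le _ _).trans (le_trans ?_ (hw N))
      refine Finset.sum_le_sum fun n _ => ?_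
      rw [norm_mul]
      exact mul_le_of_le_one_right (norm_nonneg _) (hchi_norm g χ n)
    · refine Filter.Eventually.of_forall fun χ => ?_
      have h3 := (H (hchi g χ) (hchi_mult hg χ) (hchi_norm g χ)).mul_const
        ((starRingEnd ℂ) ((χ (mkG c hc) : Circle) : ℂ))
      rwa [zero_mul] at h3

/-- the logarithmic average of a sequence -/
def logAvg (a : ℕ → ℂ) (N : ℕ) : ℂ :=
  (1 : ℂ) / ((Real.log (N : ℝ) : ℝ) : ℂ) * ∑ n ∈ Finset.Icc 1 N, (1 : ℂ) / (n : ℂ) * a n

lemma sum_inv_le (N : ℕ) : ∑ n ∈ Finset.Icc 1 N, (1 : ℝ) / (n : ℝ) ≤ 1 + Real.log N := by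
  have h := harmonic_le_one_add_log N
  rw [harmonic_eq_sum_Icc] at h
  push_cast at h
  simpa [one_div] using h

lemma weight_le (N : ℕ) :
    1 / |Real.log (N : ℝ)| * ∑ n ∈ Finset.Icc 1 N, (1 : ℝ) / (n : ℝ) ≤ 3 := by
  rcases Nat.lt_or_ge N 2 with hN | hN
  · have : Real.log (N : ℝ) = 0 := by
      interval_cases N <;> simp
    rw [this]
    simp
  · have h2 : Real.log 2 ≤ Real.log (N : ℝ) :=
      Real.log_le_log (by norm_num) (by exact_mod_cast hN)
    have h3 := Real.log_two_gt_d9
    have hpos : 0 < Real.log (N : ℝ) := by linarith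
    rw [abs_of_pos hpos, one_div, inv_mul_le_iff₀ hpos]
    have := sum_inv_le N
    linarith

/-- The transfer principle for logarithmic averages against a bounded sequence. -/
theorem transfer_log (F : ℕ → ℂ) (C : ℝ) (hF : ∀ n, ‖F n‖ ≤ C)
    (H : ∀ h : ArithmeticFunction ℂ, h.IsMultiplicative → (∀ n, ‖h n‖ ≤ 1) →
      Tendsto (logAvg fun n => h n * F n) atTop (𝓝 0))
    (g : ArithmeticFunction ℂ) (hg : g.IsMultiplicative) (c : ℂ) :
    Tendsto (logAvg fun n => (if g n = c then 1 else 0) * F n) atTop (𝓝 0) := by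
  have hC : 0 ≤ C := (norm_nonneg _).trans (hF 0)
  have key := transfer (fun N => Finset.Icc 1 N)
    (fun N n hn => by have := (Finset.mem_Icc.mp hn).1; omega)
    (fun N n => (1 : ℂ) / ((Real.log (N : ℝ) : ℝ) : ℂ) * ((1 : ℂ) / (n : ℂ)) * F n) (3 * C)
    (by
      intro N
      calc ∑ n ∈ Finset.Icc 1 N, ‖(1 : ℂ) / ((Real.log (N : ℝ) : ℝ) : ℂ) * ((1 : ℂ) / (n : ℂ)) * F n‖
          ≤ ∑ n ∈ Finset.Icc 1 N, 1 / |Real.log (N : ℝ)| * ((1 : ℝ) / (n : ℝ)) * C := by
            refine Finset.sum_le_sum fun n _ => ?_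
            rw [norm_mul, norm_mul, norm_div, norm_div, norm_one, Complex.norm_real,
              Complex.norm_natCast, Real.norm_eq_abs]
            exact mul_le_mul_of_nonneg_left (hF n) (by positivity)
        _ = (1 / |Real.log (N : ℝ)| * ∑ n ∈ Finset.Icc 1 N, (1 : ℝ) / (n : ℝ)) * C := by
            rw [Finset.mul_sum, Finset.sum_mul]
        _ ≤ 3 * C := mul_le_mul_of_nonneg_right (weight_le N) hC)
    (by
      intro h hh hb
      refine (H h hh hb).congr fun N => ?_
      unfold logAvg
      rw [Finset.mul_sum]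
      refine Finset.sum_congr rfl fun n _ => ?_
      ring) g hg c
  refine key.congr fun N => ?_
  unfold logAvg
  rw [Finset.mul_sum]
  refine Finset.sum_congr rfl fun n _ => ?_
  ring

/-- `UnitDiscProperty T μ`: the conclusion of the theorem of Frantzikinakis and Host for the system
`(X, μ, T)`, for multiplicative functions `h` with values in the closed unit disc. -/
def UnitDiscProperty {X : Type} [MetricSpace X] [CompactSpace X] [MeasurableSpace X] [BorelSpace X]
    (T : X → X) (μ : Measure X) : Prop :=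
  ∀ h : ArithmeticFunction ℂ, h.IsMultiplicative → (∀ n, ‖h n‖ ≤ 1) →
    ∀ (f : C(X, ℂ)) (x : X), ∫ y, f y ∂μ = 0 →
      Tendsto (logAvg fun n => h n * f (T^[n] x)) atTop (𝓝 0)

/-- `LevelSetProperty T μ`: the conclusion of Q1 for the system `(X, μ, T)`: for every complex
multiplicative `g` (no boundedness), every continuous `f`, point `x` and complex `c`. -/
def LevelSetProperty {X : Type} [MetricSpace X] [CompactSpace X] [MeasurableSpace X] [BorelSpace X]
    (T : X → X) (μ : Measure X) : Prop :=
  ∀ g : ArithmeticFunction ℂ, g.IsMultiplicative →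
    ∀ (f : C(X, ℂ)) (x : X) (c : ℂ),
      Tendsto (logAvg fun n => (if g n = c then 1 else 0) * (f (T^[n] x) - ∫ y, f y ∂μ))
        atTop (𝓝 0)

/-- **Main result.** For every system, the unit disc property (for zero-entropy totally uniquely
ergodic systems this is the theorem of Frantzikinakis and Host quoted in the problem file) implies
the level set property asked for in Q1. -/
theorem result :
    ∀ (X : Type) [MetricSpace X] [CompactSpace X] [MeasurableSpace X] [BorelSpace X]
      (T : X → X) (μ : Measure X), IsProbabilityMeasure μ →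
      UnitDiscProperty T μ → LevelSetProperty T μ := by
  intro X _ _ _ _ T μ hμ FH g hg f x c
  set I : ℂ := ∫ y, f y ∂μ with hI
  let f0 : C(X, ℂ) := f - ContinuousMap.const X I
  have hf0 : ∫ y, f0 y ∂μ = 0 := by
    have hint : Integrable (fun y => f y) μ :=
      f.continuous.integrable_of_hasCompactSupport (HasCompactSupport.of_compactSpace _)
    change ∫ y, (f y - I) ∂μ = 0
    rw [integral_sub hint (integrable_const _), integral_const, ← hI]
    simp
  exact transfer_log (fun n => f0 (T^[n] x)) ‖f0‖ (fun n => f0.norm_coe_le_norm _)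
    (fun h hh hb => FH h hh hb f0 x hf0) g hg c

/-- The assertion of Q1 in the form of the frozen statement, deduced from the theorem of
Frantzikinakis and Host. -/
theorem q1_of_frantzikinakisHost
    (FH : ∀ (X : Type) [MetricSpace X] [CompactSpace X] [MeasurableSpace X] [BorelSpace X]
      (T : X → X), Continuous T → Dynamics.coverEntropy T Set.univ = 0 →
      ∀ μ : Measure X, IsProbabilityMeasure μ → MeasurePreserving T μ μ →
      (∀ k : ℕ, 1 ≤ k → ∀ ν : Measure X, IsProbabilityMeasure ν →
        MeasurePreserving (T^[k]) ν ν → ν = μ) →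
      UnitDiscProperty T μ) :
    ∀ (X : Type) [MetricSpace X] [CompactSpace X] [MeasurableSpace X] [BorelSpace X]
      (T : X → X), Continuous T → Dynamics.coverEntropy T Set.univ = 0 →
      ∀ μ : Measure X, IsProbabilityMeasure μ → MeasurePreserving T μ μ →
      (∀ k : ℕ, 1 ≤ k → ∀ ν : Measure X, IsProbabilityMeasure ν →
          MeasurePreserving (T^[k]) ν ν → ν = μ) →
      ∀ g : ArithmeticFunction ℂ, g.IsMultiplicative →
      ∀ (f : C(X, ℂ)) (x : X) (c : ℂ),
        Tendsto
          (fun N : ℕ => ((1 : ℂ) / ((Real.log (N : ℝ) : ℝ) : ℂ)) *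
            ∑ n ∈ Finset.Icc 1 N,
              ((1 : ℂ) / (n : ℂ)) * (if g n = c then (1 : ℂ) else 0) *
                (f (T^[n] x) - ∫ y, f y ∂μ))
          atTop (𝓝 0) := by
  intro X _ _ _ _ T hT hent μ hμ hinv hue g hg f x c
  refine (result X T μ hμ (FH X T hT hent μ hμ hinv hue) g hg f x c).congr fun N => ?_
  unfold logAvg
  congr 1
  refine Finset.sum_congr rfl fun n _ => ?_
  ring

end

end Pool.Agent.Results.MP_2e860a_nt.LevelSetTransfer
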